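import Mathlib
import Pool.Prelude.Def_F_58bd55a0
import Pool.Agent.H346R3.RG.Final

set_option autoImplicit false

/-!
The maximal size `R k N` of a subset of `{1, …, N}` without `k` terms in progression against the
worst case `G k N` over all sets of `N` integers.  A uniformly random affine map `a ↦ a t + x`
modulo a large prime makes the images of the elements pairwise independent; the images are caught
in the windows `[2 w (j - 1), 2 w (j - 1) + w)`, `j ∈ B`, where `B` is an optimal subset of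
`{1, …, M}`, and at most `k - 1` elements are kept in each window.
-/

open Nb572fa8d Filter

namespace Pool.Agent.Results.MP_bdcdc5_co.UniformRatio

/-- For every `k ≥ 3`:
(1) `R_k(N) ≤ (32 (2k - 3) / (16 k - 25)) G_k(N)` for every `N`; for `k = 3` the factor is `96/23`;
(2) the comparison with two parameters
`R_k(M) · N (8 (2k - 3) M - N) ≤ 32 (2k - 3) M² · G_k(N)`;
(3) for every `ε > 0` there are infinitely many `N` with `R_k(N) ≤ (4 + ε) G_k(N)`. -/
theorem result (k : ℕ) (hk : 3 ≤ k) :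
    (∀ N : ℕ, (R k N : ℝ) ≤ 32 * (2 * k - 3) / (16 * k - 25) * (G k N : ℝ)) ∧
    (∀ M N : ℕ, 0 < M →
      (R k M : ℝ) * (N * (8 * (2 * k - 3) * M - N)) ≤ 32 * (2 * k - 3) * M ^ 2 * (G k N : ℝ)) ∧
    (∀ ε : ℝ, 0 < ε → ∃ᶠ N : ℕ in atTop, (R k N : ℝ) ≤ (4 + ε) * (G k N : ℝ)) := by
  refine ⟨?_, H346R3.RG.compare k hk, H346R3.RG.frequently_le k hk⟩
  intro N
  have hk3 : (3 : ℝ) ≤ k := by exact_mod_cast hk
  have hd : (0 : ℝ) < 16 * k - 25 := by linarith
  rcases Nat.eq_zero_or_pos N with h0 | hN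
  · subst h0
    have h1 : R k 0 = 0 := Nat.le_zero.1 (H346R3.RG.R_le k 0)
    rw [h1]
    have : (0 : ℝ) ≤ 32 * (2 * k - 3) / (16 * k - 25) := div_nonneg (by linarith) hd.le
    simpa using mul_nonneg this (Nat.cast_nonneg (α := ℝ) (G k 0))
  · have h := H346R3.RG.compare k hk N N hN
    have hN' : (0 : ℝ) < N := by exact_mod_cast hN
    have h2 : (N : ℝ) ^ 2 * ((R k N : ℝ) * (16 * k - 25)) ≤
        (N : ℝ) ^ 2 * (32 * (2 * k - 3) * (G k N : ℝ)) := by
      refine le_trans (le_of_eq ?_) (h.trans (le_of_eq ?_)) <;> ring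
    have h3 := le_of_mul_le_mul_left h2 (by positivity)
    rw [div_mul_eq_mul_div, le_div_iff₀ hd]
    exact h3

end Pool.Agent.Results.MP_bdcdc5_co.UniformRatio
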